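import Pool.Agent.Benzel.Adic
import Pool.Agent.Benzel.Stones

namespace Pool.Agent.Results.MP_43bb91_co.TwoAdicContinuity

open Pool.Agent.Benzel

lemma T113_eq {m : ℤ} (hm : 1 ≤ m) :
    T113 (m + 2) (2 * m) = T4 m (1 : ℕ) 1 1 1 1 := by
  unfold T113 T4
  refine ncard_tilings (spec4 hm) _ ?_ 1 1 1 1 1 ?_
  · intro t ht
    rw [stone_iff, bone_iff] at ht
    unfold Tile5
    tauto
  · intro t ht
    have h1 : wtC 1 1 1 1 1 t = (1 : ℕ) := by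
      unfold wtC
      unfold Tile5 at ht
      split_ifs <;> first | rfl | (exfalso; tauto)
    have h2 : IsStone t ∨ IsAnyBone t := by
      rw [stone_iff, bone_iff]
      unfold Tile5 at ht
      tauto
    exact ⟨fun _ => h1, fun h => absurd h2 h⟩

lemma cast_T4 (K : ℕ) (m : ℤ) :
    ((T4 m (1 : ℕ) 1 1 1 1 : ℕ) : ZMod (2 ^ K)) = T4 m (1 : ZMod (2 ^ K)) 1 1 1 1 := by
  unfold T4
  have h := W_map (Nat.castRingHom (ZMod (2 ^ K))) Al1 1 1 1 1 1 (F1 m) (F2 m) (F3 m)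
  simpa using h

lemma two_pow_zero (K : ℕ) : (2 : ZMod (2 ^ K)) ^ K = 0 := by
  have := ZMod.natCast_self (2 ^ K)
  push_cast at this
  exact this

lemma per_T (K : ℕ) : ∃ e : ℕ, ∀ n : ℤ, 5 ≤ n →
    (T113 (n + 2 ^ e) (2 * (n + 2 ^ e) - 4) : ZMod (2 ^ K)) =
      (T113 n (2 * n - 4) : ZMod (2 ^ K)) := by
  have hs : Sep (fun y z => pc ((1 : ZMod (2 ^ K)) * 1) (1 * 1) z y) := by
    rw [one_mul]
    exact pc_sep (two_pow_zero K) 1 1 (by norm_num)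
  obtain ⟨e, he⟩ := br4_per (two_pow_zero K) 1 1 1 1 1 1 hs hs hs
  have hT : ∀ k : ℕ, (T113 ((k : ℤ) + 4) (2 * ((k : ℤ) + 4) - 4) : ZMod (2 ^ K)) =
      br4 1 1 1 1 1 1 k := by
    intro k
    have e1 : ((k : ℤ) + 4) = ((k : ℤ) + 2) + 2 := by ring
    have e2 : 2 * ((k : ℤ) + 4) - 4 = 2 * ((k : ℤ) + 2) := by ring
    rw [e2, e1, T113_eq (by omega), cast_T4, T4_br4 k 1 1 1 1 1 1 (by norm_num), one_pow, one_mul]
  refine ⟨e, fun n hn => ?_⟩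
  obtain ⟨k, hk⟩ := Int.eq_ofNat_of_zero_le (show 0 ≤ n - 4 by omega)
  have hn1 : n = (k : ℤ) + 4 := by omega
  have hk1 : 1 ≤ k := by omega
  have e3 : n + 2 ^ e = ((k + 2 ^ e : ℕ) : ℤ) + 4 := by
    rw [hn1]
    push_cast
    ring
  rw [e3, hn1, hT, hT]
  exact he k hk1

/-- The function `n ↦ T113 n (2n-4)`, for `n ≥ 5`, is 2-adically continuous. -/
theorem result : ∀ k : ℕ, ∃ m : ℕ, ∀ n n' : ℤ, 5 ≤ n → 5 ≤ n' → n ≡ n' [ZMOD 2 ^ m] →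
    (T113 n (2 * n - 4) : ℤ) ≡ (T113 n' (2 * n' - 4) : ℤ) [ZMOD 2 ^ k] :=
  cont_of_per (fun n => T113 n (2 * n - 4)) 5 per_T

end Pool.Agent.Results.MP_43bb91_co.TwoAdicContinuity
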